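import Pool.Agent.P.MP_b01859_ag.U.Stab

/-!
A rank 2 bundle on `P^n`, `n ≥ 4`, splits, or else all vector fields that lift to it are multiples
of the generator of one algebraic one parameter torus.  Bundles are given by their graded modules
of sections.
-/

namespace Pool.Agent.Results.MP_b01859_ag.NoUnipotent

open MvPolynomial

theorem result (n : ℕ) (hn : 4 ≤ n)
    (M : Type) [AddCommGroup M] [Module ℂ M] [Module (MvPolynomial (Fin (n + 1)) ℂ) M]
    [IsScalarTower ℂ (MvPolynomial (Fin (n + 1)) ℂ) M]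
    [Module.Finite (MvPolynomial (Fin (n + 1)) ℂ) M]
    (ℳ : ℤ → Submodule ℂ M) (hint : DirectSum.IsInternal ℳ)
    (hgr : ∀ (i : Fin (n + 1)) (k : ℤ) (m : M), m ∈ ℳ k →
      (X i : MvPolynomial (Fin (n + 1)) ℂ) • m ∈ ℳ (k + 1))
    (hfree : ∀ p : PrimeSpectrum (MvPolynomial (Fin (n + 1)) ℂ), (∃ i, X i ∉ p.asIdeal) →
      Module.Free (Localization.AtPrime p.asIdeal) (LocalizedModule p.asIdeal.primeCompl M) ∧
      Module.finrank (Localization.AtPrime p.asIdeal)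
        (LocalizedModule p.asIdeal.primeCompl M) = 2) :
    (∃ (a b : ℤ) (φ : M →ₗ[MvPolynomial (Fin (n + 1)) ℂ]
        MvPolynomial (Fin (n + 1)) ℂ × MvPolynomial (Fin (n + 1)) ℂ),
      (∀ (k : ℤ) (m : M), m ∈ ℳ k →
        IsWeightedHomogeneous (fun _ => (1 : ℤ)) (φ m).1 (k + a) ∧
        IsWeightedHomogeneous (fun _ => (1 : ℤ)) (φ m).2 (k + b)) ∧
      ∀ p : PrimeSpectrum (MvPolynomial (Fin (n + 1)) ℂ), (∃ i, X i ∉ p.asIdeal) →
        Function.Bijective (LocalizedModule.map p.asIdeal.primeCompl φ)) ∨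
    ∃ (P : GL (Fin (n + 1)) ℂ) (z : Fin (n + 1) → ℤ),
      ∀ (A : Matrix (Fin (n + 1)) (Fin (n + 1)) ℂ) (D : M →ₗ[ℂ] M),
        (∀ (k : ℤ) (m : M), m ∈ ℳ k → D m ∈ ℳ k) →
        (∀ (i : Fin (n + 1)) (m : M), D ((X i : MvPolynomial (Fin (n + 1)) ℂ) • m) =
          (∑ j, C (A i j) * X j : MvPolynomial (Fin (n + 1)) ℂ) • m +
            (X i : MvPolynomial (Fin (n + 1)) ℂ) • D m) →
        ∃ s t : ℂ,
          A = s • (P.val * Matrix.diagonal (fun i => (z i : ℂ)) * (P⁻¹).val) + t • 1 :=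
  Pool.Agent.P.MP_b01859_ag.stab_mod (by simpa using hn) ℳ hint hgr hfree

end Pool.Agent.Results.MP_b01859_ag.NoUnipotent
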