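import Pool.Agent.P.MP_b01859_ag.SD.MainB

/-!
A rank 2 bundle on `P^n`, `n ≥ 5`, that is generated by global sections or has a section with smooth
zero scheme splits, unless `c₁ > n² / 50`, `c₂ > n² c₁ / 50`, and `c₁ - k > n² / 50` whenever
`E(-k)` has a section.
Bundles are given by their graded modules of sections, Chern classes by the Hilbert polynomial.
-/

namespace Pool.Agent.Results.MP_b01859_ag.QuarticRange

open MvPolynomial

theorem result (n : ℕ) (hn : 5 ≤ n)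
    (M : Type) [AddCommGroup M] [Module ℂ M] [Module (MvPolynomial (Fin (n + 1)) ℂ) M]
    [IsScalarTower ℂ (MvPolynomial (Fin (n + 1)) ℂ) M]
    [Module.Finite (MvPolynomial (Fin (n + 1)) ℂ) M]
    (ℳ : ℤ → Submodule ℂ M) (hint : DirectSum.IsInternal ℳ)
    (hgr : ∀ (i : Fin (n + 1)) (k : ℤ) (m : M), m ∈ ℳ k →
      (X i : MvPolynomial (Fin (n + 1)) ℂ) • m ∈ ℳ (k + 1))
    (hfree : ∀ p : PrimeSpectrum (MvPolynomial (Fin (n + 1)) ℂ), (∃ i, X i ∉ p.asIdeal) →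
      Module.Free (Localization.AtPrime p.asIdeal) (LocalizedModule p.asIdeal.primeCompl M) ∧
      Module.finrank (Localization.AtPrime p.asIdeal)
        (LocalizedModule p.asIdeal.primeCompl M) = 2)
    (hpos : (∀ p : PrimeSpectrum (MvPolynomial (Fin (n + 1)) ℂ), (∃ i, X i ∉ p.asIdeal) →
        ∀ m : M, ∃ h : MvPolynomial (Fin (n + 1)) ℂ, h ∉ p.asIdeal ∧
          h • m ∈ Submodule.span (MvPolynomial (Fin (n + 1)) ℂ) (ℳ 0 : Set M)) ∨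
      ∃ s ∈ ℳ 0, ∀ y : Fin (n + 1) → ℂ, y ≠ 0 → ∀ e : M, ∀ f ∈ RingHom.ker (eval y),
        s - f • e ∉ (RingHom.ker (eval y) ^ 2 • ⊤ : Submodule (MvPolynomial (Fin (n + 1)) ℂ) M)) :
    ∃ (c₁ c₂ : ℤ) (α β : ℂ), α + β = c₁ ∧ α * β = c₂ ∧
      (∀ᶠ t : ℤ in Filter.atTop, (Module.finrank ℂ (ℳ t) : ℂ) =
        (∏ i ∈ Finset.range n, ((t : ℂ) + α + (i : ℂ) + 1) +
          ∏ i ∈ Finset.range n, ((t : ℂ) + β + (i : ℂ) + 1)) / (n.factorial : ℂ)) ∧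
      ((∃ (a b : ℤ) (φ : M →ₗ[MvPolynomial (Fin (n + 1)) ℂ]
          MvPolynomial (Fin (n + 1)) ℂ × MvPolynomial (Fin (n + 1)) ℂ),
        (∀ (k : ℤ) (m : M), m ∈ ℳ k →
          IsWeightedHomogeneous (fun _ => (1 : ℤ)) (φ m).1 (k + a) ∧
          IsWeightedHomogeneous (fun _ => (1 : ℤ)) (φ m).2 (k + b)) ∧
        ∀ p : PrimeSpectrum (MvPolynomial (Fin (n + 1)) ℂ), (∃ i, X i ∉ p.asIdeal) →
          Function.Bijective (LocalizedModule.map p.asIdeal.primeCompl φ)) ∨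
      ((n : ℤ) ^ 2 < 50 * c₁ ∧ (n : ℤ) ^ 2 * c₁ < 50 * c₂ ∧ ∀ (k : ℤ) (s : M), s ∈ ℳ (-k) →
        (∀ f : MvPolynomial (Fin (n + 1)) ℂ, f • s = 0 → f = 0) → (n : ℤ) ^ 2 < 50 * (c₁ - k))) :=
  open Pool.Agent.P.MP_b01859_ag.SD in
  finB q_FRL q_FRH q_CHERN q_DISC q_BN q_FRG q_FRS q_SMP q_SMO q_MAINB q_HQ (Fintype.card_fin _) hn
    hint hgr hfree hpos

end Pool.Agent.Results.MP_b01859_ag.QuarticRange
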