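import Pool.Agent.P.MP_b01859_ag.SD.MainA

/-!
A rank 2 bundle on `P^n`, `n ≥ 5`, splits, or else every section of a twist that vanishes in
codimension at least two has zeros of degree at least quadratic in `n`.  Bundles are given by their
graded modules of sections, Chern classes by the Hilbert polynomial.
-/

namespace Pool.Agent.Results.MP_b01859_ag.SectionDegree

open MvPolynomial

theorem result (n : ℕ) (hn : 5 ≤ n)
    (M : Type) [AddCommGroup M] [Module ℂ M] [Module (MvPolynomial (Fin (n + 1)) ℂ) M]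
    [IsScalarTower ℂ (MvPolynomial (Fin (n + 1)) ℂ) M]
    [Module.Finite (MvPolynomial (Fin (n + 1)) ℂ) M]
    (ℳ : ℤ → Submodule ℂ M) (hint : DirectSum.IsInternal ℳ)
    (hgr : ∀ (i : Fin (n + 1)) (k : ℤ) (m : M), m ∈ ℳ k →
      (X i : MvPolynomial (Fin (n + 1)) ℂ) • m ∈ ℳ (k + 1))
    (hfree : ∀ p : PrimeSpectrum (MvPolynomial (Fin (n + 1)) ℂ), (∃ i, X i ∉ p.asIdeal) →
      Module.Free (Localization.AtPrime p.asIdeal) (LocalizedModule p.asIdeal.primeCompl M) ∧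
      Module.finrank (Localization.AtPrime p.asIdeal)
        (LocalizedModule p.asIdeal.primeCompl M) = 2) :
    ∃ (c₁ c₂ : ℤ) (α β : ℂ), α + β = c₁ ∧ α * β = c₂ ∧
      (∀ᶠ t : ℤ in Filter.atTop, (Module.finrank ℂ (ℳ t) : ℂ) =
        (∏ i ∈ Finset.range n, ((t : ℂ) + α + (i : ℂ) + 1) +
          ∏ i ∈ Finset.range n, ((t : ℂ) + β + (i : ℂ) + 1)) / (n.factorial : ℂ)) ∧
      ((∃ (a b : ℤ) (φ : M →ₗ[MvPolynomial (Fin (n + 1)) ℂ]
          MvPolynomial (Fin (n + 1)) ℂ × MvPolynomial (Fin (n + 1)) ℂ),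
        (∀ (k : ℤ) (m : M), m ∈ ℳ k →
          IsWeightedHomogeneous (fun _ => (1 : ℤ)) (φ m).1 (k + a) ∧
          IsWeightedHomogeneous (fun _ => (1 : ℤ)) (φ m).2 (k + b)) ∧
        ∀ p : PrimeSpectrum (MvPolynomial (Fin (n + 1)) ℂ), (∃ i, X i ∉ p.asIdeal) →
          Function.Bijective (LocalizedModule.map p.asIdeal.primeCompl φ)) ∨
      ∀ (j : ℤ) (s : M), s ∈ ℳ j →
        (∀ (f h : MvPolynomial (Fin (n + 1)) ℂ) (m : M), Prime f → h • s = f • m → f ∣ h) →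
        (n : ℤ) ^ 2 ≤ 24 * (j ^ 2 + c₁ * j + c₂) ∧
          (4 * c₂ ≤ c₁ ^ 2 → ((n / 2 : ℕ) : ℤ) ^ 2 ≤ j ^ 2 + c₁ * j + c₂)) :=
  open Pool.Agent.P.MP_b01859_ag.SD in
  finA q_FRL q_FRH q_CHERN q_DISC q_BN q_FRP q_MAINA (Fintype.card_fin _) hn hint hgr hfree

end Pool.Agent.Results.MP_b01859_ag.SectionDegree
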