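import Pool.Agent.P.MP_b01859_ag.SC.Main

/-!
A rank 2 bundle on `P^n`, `n ≥ 5`, splits, or else all its cohomology modules `H^q`, `q < n`, are
nonzero and a minimal generator of `H^q` in degree `t` forces `H^(q+1)` to be nonzero in degree
`t - 2`.  Bundles are given by graded modules, cohomology by cochains on the standard cover.
-/

namespace Pool.Agent.Results.MP_b01859_ag.Staircase

open MvPolynomial

variable {n : ℕ} {M : Type} [AddCommGroup M] [Module ℂ M]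
  [Module (MvPolynomial (Fin (n + 1)) ℂ) M]

/-- The fractions `ξ s / (x_(s 0) ⋯ x_(s q)) ^ ν` form a `q`-cocycle of degree `t`. -/
def Coc (ℳ : ℤ → Submodule ℂ M) (q : ℕ) (t : ℤ) (ν : ℕ)
    (ξ : (Fin (q + 1) → Fin (n + 1)) → M) : Prop :=
  (∀ s, ξ s ∈ ℳ (t + ν * (q + 1))) ∧ ∀ s : Fin (q + 2) → Fin (n + 1), ∑ k : Fin (q + 2),
    ((-1) ^ (k : ℕ) * X (s k) ^ ν : MvPolynomial (Fin (n + 1)) ℂ) • ξ (s ∘ k.succAbove) = 0

variable (n) in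
/-- Every `q`-cocycle of degree `t` is a coboundary. -/
def Van (ℳ : ℤ → Submodule ℂ M) (q : ℕ) (t : ℤ) : Prop :=
  ∀ (ν : ℕ) (ξ : (Fin (q + 1) → Fin (n + 1)) → M), Coc ℳ q t ν ξ →
    ∃ (μ : ℕ) (η : (Fin q → Fin (n + 1)) → M),
      (∀ s, η s ∈ ℳ (t + (ν + μ) * q)) ∧ (q = 0 → η = 0) ∧
      ∀ s, ((∏ k, X (s k)) ^ μ : MvPolynomial (Fin (n + 1)) ℂ) • ξ s = ∑ k : Fin (q + 1),
        ((-1) ^ (k : ℕ) * X (s k) ^ (ν + μ) : MvPolynomial (Fin (n + 1)) ℂ) • η (s ∘ k.succAbove)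

variable (n) in
/-- Every `q`-cocycle of degree `t` is `∑ x_j η_j` with cocycles `η_j` of degree `t - 1`. -/
def Gen (ℳ : ℤ → Submodule ℂ M) (q : ℕ) (t : ℤ) : Prop :=
  ∀ (ν : ℕ) (ξ : (Fin (q + 1) → Fin (n + 1)) → M), Coc ℳ q t ν ξ →
    ∃ (μ : ℕ) (η : Fin (n + 1) → (Fin (q + 1) → Fin (n + 1)) → M),
      (∀ j, Coc ℳ q (t - 1) (ν + μ) (η j)) ∧
      ∀ s, ((∏ k, X (s k)) ^ μ : MvPolynomial (Fin (n + 1)) ℂ) • ξ s =
        ∑ j, (X j : MvPolynomial (Fin (n + 1)) ℂ) • η j s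

theorem result (n : ℕ) (hn : 5 ≤ n)
    (M : Type) [AddCommGroup M] [Module ℂ M] [Module (MvPolynomial (Fin (n + 1)) ℂ) M]
    [IsScalarTower ℂ (MvPolynomial (Fin (n + 1)) ℂ) M]
    [Module.Finite (MvPolynomial (Fin (n + 1)) ℂ) M]
    (ℳ : ℤ → Submodule ℂ M) (hint : DirectSum.IsInternal ℳ)
    (hgr : ∀ (i : Fin (n + 1)) (k : ℤ) (m : M), m ∈ ℳ k →
      (X i : MvPolynomial (Fin (n + 1)) ℂ) • m ∈ ℳ (k + 1))
    (hfree : ∀ p : PrimeSpectrum (MvPolynomial (Fin (n + 1)) ℂ), (∃ i, X i ∉ p.asIdeal) →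
      Module.Free (Localization.AtPrime p.asIdeal) (LocalizedModule p.asIdeal.primeCompl M) ∧
      Module.finrank (Localization.AtPrime p.asIdeal)
        (LocalizedModule p.asIdeal.primeCompl M) = 2) :
    ∃ (c₁ c₂ : ℤ) (α β : ℂ), α + β = c₁ ∧ α * β = c₂ ∧
      (∀ᶠ t : ℤ in Filter.atTop, (Module.finrank ℂ (ℳ t) : ℂ) =
        (∏ i ∈ Finset.range n, ((t : ℂ) + α + (i : ℂ) + 1) +
          ∏ i ∈ Finset.range n, ((t : ℂ) + β + (i : ℂ) + 1)) / (n.factorial : ℂ)) ∧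
      ((∃ (a b : ℤ) (φ : M →ₗ[MvPolynomial (Fin (n + 1)) ℂ]
          MvPolynomial (Fin (n + 1)) ℂ × MvPolynomial (Fin (n + 1)) ℂ),
        (∀ (k : ℤ) (m : M), m ∈ ℳ k →
          IsWeightedHomogeneous (fun _ => (1 : ℤ)) (φ m).1 (k + a) ∧
          IsWeightedHomogeneous (fun _ => (1 : ℤ)) (φ m).2 (k + b)) ∧
        ∀ p : PrimeSpectrum (MvPolynomial (Fin (n + 1)) ℂ), (∃ i, X i ∉ p.asIdeal) →
          Function.Bijective (LocalizedModule.map p.asIdeal.primeCompl φ)) ∨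
      ∃ b : ℕ → ℤ,
        (∀ q : ℕ, q + 1 ≤ n → ¬ Van n ℳ q (b q) ∧ ∀ t : ℤ, t < b q → Van n ℳ q t) ∧
        ∀ (q : ℕ) (t : ℤ), t ≤ b 0 ∨ t ^ 2 + c₁ * t + c₂ ≠ 0 →
          Van n ℳ (q + 1) (t - 2) → Gen n ℳ q t) := by
  have e : ∀ q t, Van n ℳ q t ↔ Pool.Agent.P.MP_b01859_ag.SC.Van (Fin (n + 1)) ℳ q t :=
    fun q t => ⟨fun h ν ξ h1 h2 => h ν ξ ⟨h1, h2⟩, fun h ν ξ h1 => h ν ξ h1.1 h1.2⟩
  obtain ⟨c₁, c₂, α, β, h1, h2, h3, h4⟩ :=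
    Pool.Agent.P.MP_b01859_ag.SC.core (Fintype.card_fin _) hn hint hgr hfree
  refine ⟨c₁, c₂, α, β, h1, h2, h3, h4.imp id fun ⟨h5, b, h6, _⟩ => ⟨b, ?_, fun q t h7 h8 => ?_⟩⟩
  · simpa only [e] using h6
  · exact h5 q t (h7.imp_left fun h => (h6 0 (by omega)).2 _ (by omega)) ((e _ _).1 h8)

end Pool.Agent.Results.MP_b01859_ag.Staircase
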